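import Pool.Agent.Y498.RH.Inv

set_option autoImplicit false

/-!
# The coefficient of `ε` in every flow of a deformation of the Riemann hierarchy is a Miura invariant

`DP = ℂ[[u]][u_1, u_2, …]` (the variable `X k` is `u_{k+1}`) and `EDP = DP[[ε]]` are those of
`Pool/Agent/H93RH/Defs.lean`; `IsDeformation`, `MiuraEquivalent`, `bser` (the series `b_k`) and the
family `fam β` are those of the starting file `NotDeterminedByLinearPart`.
-/

open MvPolynomial

namespace Pool.Agent.Results.MP_4b14b2_mp.FirstOrderInvariant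

open Pool.Agent.H93RH hiding IsDeformation
open Pool.Agent.Results.MP_4b14b2_mp.NotDeterminedByLinearPart

/-- `b_{(1,1)}`, the coefficient of `ε u_1²` in the first flow `Q_1`. -/
noncomputable def b11 (Q : ℕ → EDP) : PowerSeries ℂ :=
  coeff (Finsupp.single 0 2) (PowerSeries.coeff 1 (Q 1))

/-- **Miura invariance of the first order part.** For all Miura equivalent deformations `Q`, `Q'` of
the Riemann hierarchy the whole coefficient of `ε` in every flow is the same; in particular
`b_{(1,1)} = b'_{(1,1)}`. On the other hand for every `β ∈ ℂ[[u]]` there is a deformation with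
`b_k = 0` for all `k ≥ 2` and `b_{(1,1)} = β`. So the series `b_k` do not determine the Miura class,
and the classes with all `b_k = 0` are at least as many as the power series `β`. -/
theorem result :
    (∀ Q Q' : ℕ → EDP, IsDeformation Q → IsDeformation Q' → MiuraEquivalent Q Q' →
      (∀ d, PowerSeries.coeff 1 (Q d) = PowerSeries.coeff 1 (Q' d)) ∧ b11 Q = b11 Q') ∧
    (∀ β : PowerSeries ℂ, IsDeformation (fam β) ∧ (∀ k, 2 ≤ k → bser (fam β) k = 0) ∧
      b11 (fam β) = β) ∧
    ¬ ∀ Q Q' : ℕ → EDP, IsDeformation Q → IsDeformation Q' →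
      (∀ k, 2 ≤ k → bser Q k = bser Q' k) → MiuraEquivalent Q Q' := by
  have hinv : ∀ Q Q' : ℕ → EDP, IsDeformation Q → IsDeformation Q' → MiuraEquivalent Q Q' →
      (∀ d, PowerSeries.coeff 1 (Q d) = PowerSeries.coeff 1 (Q' d)) ∧ b11 Q = b11 Q' := by
    intro Q Q' h1 h2 h
    have h3 := Pool.Agent.Y498.RH.inv_all Q Q' h1 h2 h
    refine ⟨h3, ?_⟩
    unfold b11
    rw [h3 1]
  have hb : ∀ β : PowerSeries ℂ, b11 (fam β) = β := by
    intro β
    unfold b11
    rw [coeff1_fam, coeff_monomial, if_pos rfl]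
  refine ⟨hinv, fun β => ⟨fam_def β, fam_b β, hb β⟩, fun h => ?_⟩
  have h1 := (hinv _ _ (fam_def 1) (fam_def 0) (h (fam 1) (fam 0) (fam_def 1) (fam_def 0)
    fun k hk => by rw [fam_b 1 k hk, fam_b 0 k hk])).2
  rw [hb, hb] at h1
  exact one_ne_zero h1

end Pool.Agent.Results.MP_4b14b2_mp.FirstOrderInvariant
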